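import Pool.Agent.H10.HlB
import Pool.Agent.H10.HlC
import Pool.Agent.H10.HlD

set_option autoImplicit false

namespace Pool.Agent.Results.MP_a09a4b_an.Mixed

open scoped ENNReal

/-- MP_a09a4b_an, Q1 answered yes: there is a mixed searcher strategy whose guaranteed cost is
strictly smaller than Alpern's value (and at most `0.6213`, while Alpern's value is at least
`0.6244`). The first part says that Alpern's family of parameters exists, with a finite value. -/
theorem result :
    (∃ (lam : ℤ → ℝ) (v : ℝ), H10Hl.IsAlpern lam (ENNReal.ofReal v)) ∧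
    ∃ σ : H10Hl.MixedStrategy,
      σ.guaranteed ≤ ENNReal.ofReal 0.6213 ∧
      ∀ (lam : ℤ → ℝ) (v : ℝ≥0∞), H10Hl.IsAlpern lam v →
        ENNReal.ofReal 0.6244 ≤ v ∧ σ.guaranteed < v := by
  refine ⟨⟨_, _, H10Hl.exists_alpern⟩, H10Hl.sigma, ?_, fun lam v hv => ?_⟩
  · have := H10Hl.sigma_guaranteed
    norm_num at this ⊢
    exact this
  · have h1 := H10Hl.alpern_ge lam v hv
    have h2 := H10Hl.sigma_guaranteed
    have h3 : ENNReal.ofReal (6213/10000) < ENNReal.ofReal (6244/10000) := by
      rw [ENNReal.ofReal_lt_ofReal_iff (by norm_num)]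
      norm_num
    refine ⟨?_, lt_of_le_of_lt h2 (lt_of_lt_of_le h3 h1)⟩
    norm_num at h1 ⊢
    exact h1

end Pool.Agent.Results.MP_a09a4b_an.Mixed
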